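import Mathlib
import Pool.Agent.Lib.MP_b803e5_al_B.Defs

/-!
# MP_b803e5_al, strong products: factors, timed trajectories, lattice quotients (definitions)
-/

set_option autoImplicit false

namespace Pool.Agent.MP_b803e5_al

/-- The axioms of a factor: a connected locally finite graph in which the neighbours of `x` closer
to `y` have a common neighbour two steps closer to `y` (so that steps exist), and in which two
trajectories towards nearby vertices, starting near each other, stay near each other. -/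
structure Fac {V : Type*} (X : SimpleGraph V) : Prop where
  connected : X.Connected
  fin : ∀ v, (X.neighborSet v).Finite
  step : ∀ y x, 2 < X.dist x y → ∃ z, X.dist z y + 2 = X.dist x y ∧
    ∀ m, X.Adj x m → X.dist m y + 1 = X.dist x y → X.Adj m z
  stab : ∀ r : ℕ, ∃ R : ℕ, ∀ (y y' : V) (c c' : ℕ → V), Traj X y c → Traj X y' c' →
    X.dist y y' ≤ 2 → X.dist (c 0) (c' 0) ≤ r → ∀ t, X.dist (c t) (c' t) ≤ R

/-- `z` is a best move from `x` towards `y`, if `r` double steps remain after it. -/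
def FAS {V : Type*} (X : SimpleGraph V) (r : ℕ) (y x z : V) : Prop :=
  X.dist x z ≤ 2 ∧ X.dist z y ≤ 2 * r ∧
    ∀ z', X.dist x z' ≤ 2 → X.dist z' y ≤ 2 * r → (Nb X x z').ncard ≤ (Nb X x z).ncard

/-- a timed trajectory: rest until the time `s`, then follow steps towards `y` -/
def TT {V : Type*} (X : SimpleGraph V) (s : ℕ) (y : V) (c : ℕ → V) : Prop :=
  (∀ t, t < s → c (t + 1) = c t) ∧ ∀ t, s ≤ t → Step X y (c t) (c (t + 1))

section product

variable {ι : Type*} {V : ι → Type*} (X : ∀ i, SimpleGraph (V i))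

/-- distance at most `m` in the strong product -/
def PD (m : ℕ) (u v : ∀ i, V i) : Prop := ∀ i, (X i).dist (u i) (v i) ≤ m

/-- the common points of two unit balls of the strong product -/
def PN (x z : ∀ i, V i) : Set (∀ i, V i) := {u | PD X 1 x u ∧ PD X 1 u z}

/-- best moves in the strong product -/
def PAS (r : ℕ) (y x z : ∀ i, V i) : Prop :=
  PD X 2 x z ∧ PD X (2 * r) z y ∧
    ∀ z', PD X 2 x z' → PD X (2 * r) z' y → (PN X x z').ncard ≤ (PN X x z).ncard

end product

section lattice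

variable {𝓛 V : Type*} [Lattice 𝓛]

/-- the powers of `τ` -/
def sh (τ : 𝓛 ≃o 𝓛) (n : ℤ) (L : 𝓛) : 𝓛 := (τ ^ n) L

/-- `V` is the set of orbits of the automorphism `τ` of the lattice `𝓛`, with projection `π`;
`L < τ L`, the interval between `L` and `τ L` is finite, and the powers of `τ` are cofinal. -/
structure IsLatticeQuotient (τ : 𝓛 ≃o 𝓛) (π : 𝓛 → V) : Prop where
  surj : Function.Surjective π
  orbit : ∀ L M, π L = π M ↔ ∃ n : ℤ, M = (τ ^ n) L
  lt : ∀ L, L < τ L
  fin : ∀ L, (Set.Icc L (τ L)).Finite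
  cofinal : ∀ L M, ∃ n : ℕ, M ≤ (τ ^ n) L

/-- two orbits are adjacent or equal: they have representatives `L ≤ M ≤ τ L` -/
def LNear (τ : 𝓛 ≃o 𝓛) (π : 𝓛 → V) (u v : V) : Prop :=
  ∃ L M, π L = u ∧ π M = v ∧ L ≤ M ∧ M ≤ τ L

/-- the graph of a lattice quotient (the graph generated by the relation `LNear`) -/
def latGraph (τ : 𝓛 ≃o 𝓛) (π : 𝓛 → V) : SimpleGraph V := SimpleGraph.fromRel (LNear τ π)

/-- the orbits `u`, `v` have representatives `M ≤ L ≤ τ ^ m M` -/
def Wi (τ : 𝓛 ≃o 𝓛) (π : 𝓛 → V) (m : ℕ) (u v : V) : Prop :=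
  ∃ L M, π L = u ∧ π M = v ∧ M ≤ L ∧ L ≤ sh τ m M

/-- `L` is the representative of `x` which is normalised with respect to `M` -/
def Nm (τ : 𝓛 ≃o 𝓛) (π : 𝓛 → V) (M : 𝓛) (x : V) (L : 𝓛) : Prop :=
  π L = x ∧ M ≤ L ∧ ¬ sh τ 1 M ≤ L

end lattice

end Pool.Agent.MP_b803e5_al
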