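import Mathlib
import Pool.Agent.Lib.MP_b803e5_al_P.Defs

/-!
# MP_b803e5_al, factors: best moves
-/

set_option autoImplicit false

namespace Pool.Agent.MP_b803e5_al

variable {V : Type*} {X : SimpleGraph V}

lemma Fac.ball_finite (hX : Fac X) (v : V) : {u | X.dist v u ≤ 1}.Finite := by
  refine ((hX.fin v).union (Set.finite_singleton v)).subset ?_
  intro z hz
  change X.dist v z ≤ 1 at hz
  rcases Nat.le_one_iff_eq_zero_or_eq_one.1 hz with h | h
  · right
    exact ((hX.connected.dist_eq_zero_iff).1 h).symm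
  · left
    exact SimpleGraph.dist_eq_one_iff_adj.1 h

/-- a neighbour closer to `y` -/
lemma Fac.exists_nb (hX : Fac X) {x y : V} (h : 1 ≤ X.dist x y) :
    ∃ m, X.Adj x m ∧ X.dist m y + 1 = X.dist x y := by
  obtain ⟨m, h1, h2⟩ := exists_between hX.connected (u := x) (v := y) (m := 1)
    (n := X.dist x y - 1) (by omega)
  have h3 := hX.connected.dist_triangle (u := x) (v := m) (w := y)
  have h4 : X.dist x m = 1 := by omega
  exact ⟨m, SimpleGraph.dist_eq_one_iff_adj.1 h4, by omega⟩

lemma Fac.step_exists (hX : Fac X) (y x : V) : ∃ z, Step X y x z := by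
  by_cases h : X.dist x y ≤ 2
  · exact ⟨y, Or.inl ⟨h, rfl⟩⟩
  · push Not at h
    obtain ⟨z, h1, h2⟩ := hX.step y x h
    exact ⟨z, Or.inr ⟨h, h1, h2⟩⟩

lemma Fac.step_dist (hX : Fac X) {y x z : V} (h : Step X y x z) : X.dist x z ≤ 2 := by
  rcases h with ⟨h1, rfl⟩ | ⟨h1, h2, h3⟩
  · exact h1
  · obtain ⟨m, hm1, hm2⟩ := hX.exists_nb (x := x) (y := y) (by omega)
    have h4 := h3 m hm1 hm2
    have h5 := hX.connected.dist_triangle (u := x) (v := m) (w := z)
    have h6 := SimpleGraph.dist_eq_one_iff_adj.2 hm1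
    have h7 := SimpleGraph.dist_eq_one_iff_adj.2 h4
    omega

/-- a best move from a vertex from which one could rest: the new vertex is adjacent or equal to
everything the old vertex is adjacent or equal to -/
lemma FAS.loose (hX : Fac X) {r : ℕ} {y x z : V} (h : FAS X r y x z) (hd : X.dist x y ≤ 2 * r)
    (u : V) (hu : X.dist x u ≤ 1) : X.dist u z ≤ 1 := by
  obtain ⟨-, -, h3⟩ := h
  have h4 := h3 x (by simp) hd
  have hsub : Nb X x z ⊆ Nb X x x := by
    intro w hw
    exact ⟨hw.1, by rw [SimpleGraph.dist_comm]; exact hw.1⟩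
  have hfin : (Nb X x x).Finite := (hX.ball_finite x).subset fun w hw => hw.1
  have heq := Set.eq_of_subset_of_ncard_le hsub h4 hfin
  have hux : u ∈ Nb X x x := ⟨hu, by rw [SimpleGraph.dist_comm]; exact hu⟩
  rw [← heq] at hux
  exact hux.2

/-- a best move which brings us two steps closer to the target is a step -/
lemma FAS.isStep (hX : Fac X) {r : ℕ} {y x z : V} (h : FAS X r y x z) (h2 : 2 < X.dist x y)
    (hd : X.dist z y + 2 = X.dist x y) : Step X y x z := by
  obtain ⟨h4, h5, h6⟩ := h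
  obtain ⟨z1, h7, h8⟩ := hX.step y x h2
  have hz1 : Step X y x z1 := Or.inr ⟨h2, h7, h8⟩
  have h9 := h6 z1 (hX.step_dist hz1) (by omega)
  have hsub : Nb X x z ⊆ Nb X x z1 := by
    rintro u ⟨hu1, hu2⟩
    refine ⟨hu1, ?_⟩
    have e1 := hX.connected.dist_triangle (u := u) (v := z) (w := y)
    have e2 := hX.connected.dist_triangle (u := x) (v := u) (w := y)
    have e3 : X.dist x u = 1 := by omega
    have e4 := h8 u (SimpleGraph.dist_eq_one_iff_adj.1 e3) (by omega)
    exact (SimpleGraph.dist_eq_one_iff_adj.2 e4).le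
  have hfin : (Nb X x z1).Finite := (hX.ball_finite x).subset fun w hw => hw.1
  have heq := Set.eq_of_subset_of_ncard_le hsub h9 hfin
  refine Or.inr ⟨h2, hd, fun m hm1 hm2 => ?_⟩
  have h10 : m ∈ Nb X x z1 := ⟨(SimpleGraph.dist_eq_one_iff_adj.2 hm1).le,
    (SimpleGraph.dist_eq_one_iff_adj.2 (h8 m hm1 hm2)).le⟩
  rw [← heq] at h10
  have h11 : m ≠ z := by
    rintro rfl
    omega
  have h12 := h10.2
  have h13 := hX.connected.pos_dist_of_ne h11
  exact SimpleGraph.dist_eq_one_iff_adj.1 (by omega)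

/-- a best move from a tight position is a step to a tight position -/
lemma FAS.tight (hX : Fac X) {r : ℕ} {y x z : V} (h : FAS X r y x z) (hr : 1 ≤ r)
    (hd : X.dist x y = 2 * r + 2) : X.dist z y = 2 * r ∧ Step X y x z := by
  have h1 := hX.connected.dist_triangle (u := x) (v := z) (w := y)
  have h2 := h.1
  have h3 := h.2.1
  have h4 : X.dist z y = 2 * r := by omega
  exact ⟨h4, h.isStep hX (by omega) (by omega)⟩

/-- a best move from a position with slack one -/
lemma FAS.semi (hX : Fac X) {r : ℕ} {y x z : V} (h : FAS X r y x z) (hr : 1 ≤ r)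
    (hd : X.dist x y = 2 * r + 1) :
    X.dist z y = 2 * r ∨ (X.dist z y + 1 = 2 * r ∧ Step X y x z) := by
  have h1 := hX.connected.dist_triangle (u := x) (v := z) (w := y)
  have h2 := h.1
  have h3 := h.2.1
  by_cases h4 : X.dist z y = 2 * r
  · exact Or.inl h4
  · exact Or.inr ⟨by omega, h.isStep hX (by omega) (by omega)⟩

/-- trajectories of finite length can be continued -/
lemma Fac.extend (hX : Fac X) {y : V} {k : ℕ} {P : ℕ → V}
    (hP : ∀ t, t < k → Step X y (P t) (P (t + 1))) :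
    ∃ c : ℕ → V, Traj X y c ∧ ∀ t, t ≤ k → c t = P t := by
  choose s hs using fun v => hX.step_exists y v
  refine ⟨fun t => if t ≤ k then P t else s^[t - k] (P k), fun t => ?_, fun t ht => if_pos ht⟩
  rcases lt_trichotomy t k with h | h | h
  · have h1 : t ≤ k := h.le
    have h2 : t + 1 ≤ k := h
    simp only [h1, h2, if_true]
    exact hP t h
  · subst h
    have h2 : ¬ t + 1 ≤ t := by omega
    have h3 : t + 1 - t = 1 := by omega
    simp only [le_refl, h2, if_true, if_false, h3, Function.iterate_one]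
    exact hs _
  · have h1 : ¬ t ≤ k := by omega
    have h2 : ¬ t + 1 ≤ k := by omega
    have h3 : t + 1 - k = (t - k) + 1 := by omega
    simp only [h1, h2, if_false, h3, Function.iterate_succ_apply']
    exact hs _

/-- stability for trajectories of finite length -/
lemma Fac.stab_fin (hX : Fac X) (r : ℕ) : ∃ R : ℕ, ∀ (y y' : V) (k : ℕ) (P Q : ℕ → V),
    (∀ t, t < k → Step X y (P t) (P (t + 1))) → (∀ t, t < k → Step X y' (Q t) (Q (t + 1))) →
    X.dist y y' ≤ 2 → X.dist (P 0) (Q 0) ≤ r → ∀ t, t ≤ k → X.dist (P t) (Q t) ≤ R := by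
  obtain ⟨R, hR⟩ := hX.stab r
  refine ⟨R, fun y y' k P Q hP hQ hy h0 t ht => ?_⟩
  obtain ⟨c, hc, hc1⟩ := hX.extend hP
  obtain ⟨c', hc', hc1'⟩ := hX.extend hQ
  have h := hR y y' c c' hc hc' hy (by rw [hc1 0 (Nat.zero_le _), hc1' 0 (Nat.zero_le _)]; exact h0)
    t
  rwa [hc1 t ht, hc1' t ht] at h

end Pool.Agent.MP_b803e5_al
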