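import Mathlib
import Pool.Agent.Lib.MP_b803e5_al_P.FacA

/-!
# MP_b803e5_al, factors: paths of best moves are near timed trajectories
-/

set_option autoImplicit false

namespace Pool.Agent.MP_b803e5_al

variable {V : Type*} {X : SimpleGraph V}

/-- the hypotheses on the path `P` of best moves towards `y` of length `n` -/
structure BPath (X : SimpleGraph V) (n : ℕ) (y : V) (P : ℕ → V) : Prop where
  fas : ∀ t, t + 2 ≤ n → FAS X (n - t - 1) y (P t) (P (t + 1))
  last : ∀ t, n ≤ t + 1 → X.dist (P t) y ≤ 2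
  stop : ∀ t, n ≤ t → P t = y

lemma BPath.dist_le {n : ℕ} {y : V} {P : ℕ → V} (h : BPath X n y P) (t : ℕ) :
    X.dist (P t) (P (t + 1)) ≤ 2 := by
  by_cases ht : t + 2 ≤ n
  · exact (h.fas t ht).1
  · rw [h.stop (t + 1) (by omega)]
    exact h.last t (by omega)

lemma BPath.tight (hX : Fac X) {n : ℕ} {y : V} {P : ℕ → V} (h : BPath X n y P) {t : ℕ}
    (ht : X.dist (P t) y = 2 * (n - t)) :
    Step X y (P t) (P (t + 1)) ∧ X.dist (P (t + 1)) y = 2 * (n - (t + 1)) := by
  by_cases h1 : t + 2 ≤ n
  · obtain ⟨h2, h3⟩ := (h.fas t h1).tight hX (by omega) (by omega)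
    exact ⟨h3, by omega⟩
  · have h2 := h.stop (t + 1) (by omega)
    rw [h2, SimpleGraph.dist_self]
    exact ⟨Or.inl ⟨h.last t (by omega), rfl⟩, by omega⟩

lemma BPath.tight_all (hX : Fac X) {n : ℕ} {y : V} {P : ℕ → V} (h : BPath X n y P) {t : ℕ}
    (ht : X.dist (P t) y = 2 * (n - t)) (i : ℕ) :
    Step X y (P (t + i)) (P (t + i + 1)) ∧ X.dist (P (t + i)) y = 2 * (n - (t + i)) := by
  induction i with
  | zero => exact ⟨(h.tight hX ht).1, ht⟩
  | succ i ih =>
    have h1 := h.tight hX ih.2
    exact ⟨(h.tight hX h1.2).1, h1.2⟩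

lemma BPath.semi (hX : Fac X) {n : ℕ} {y : V} {P : ℕ → V} (h : BPath X n y P) {t : ℕ}
    (h1 : 2 * (n - t) ≤ X.dist (P t) y + 1) (h2 : X.dist (P t) y ≤ 2 * (n - t)) :
    (Step X y (P t) (P (t + 1)) ∧ 2 * (n - (t + 1)) ≤ X.dist (P (t + 1)) y + 1 ∧
      X.dist (P (t + 1)) y ≤ 2 * (n - (t + 1))) ∨
    X.dist (P (t + 1)) y = 2 * (n - (t + 1)) := by
  by_cases h3 : X.dist (P t) y = 2 * (n - t)
  · right
    exact (h.tight hX h3).2
  · by_cases h4 : t + 2 ≤ n
    · rcases (h.fas t h4).semi hX (by omega) (by omega) with h5 | ⟨h5, h6⟩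
      · right
        omega
      · left
        exact ⟨h6, by omega, by omega⟩
    · left
      have h5 := h.stop (t + 1) (by omega)
      rw [h5, SimpleGraph.dist_self]
      exact ⟨Or.inl ⟨h.last t (by omega), rfl⟩, by omega, by omega⟩

/-- if everything near `a` is near `b`, then `b` is not farther from `y` than `a`, up to one -/
lemma Fac.dom_dist (hX : Fac X) {a b y : V} (h : ∀ u, X.dist a u ≤ 1 → X.dist u b ≤ 1) :
    X.dist b y ≤ max (X.dist a y) 1 := by
  rcases Nat.eq_zero_or_pos (X.dist a y) with h0 | h0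
  · have h1 := h y (by omega)
    rw [SimpleGraph.dist_comm] at h1
    exact le_max_of_le_right h1
  · obtain ⟨m, h1, h2⟩ := hX.exists_nb h0
    have h3 := h m (SimpleGraph.dist_eq_one_iff_adj.2 h1).le
    have h4 := hX.connected.dist_triangle (u := b) (v := m) (w := y)
    rw [SimpleGraph.dist_comm] at h3
    exact le_max_of_le_left (by omega)

/-- the resting phase -/
lemma BPath.rest (hX : Fac X) {n s : ℕ} {y : V} {P : ℕ → V} (h : BPath X n y P)
    (hd : X.dist (P 0) y ≤ 2 * (n - s)) (t : ℕ) : t ≤ s → t + 1 ≤ n → ∀ u,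
      X.dist (P 0) u ≤ 1 → X.dist u (P t) ≤ 1 := by
  induction t with
  | zero =>
    intro _ _ u hu
    rwa [SimpleGraph.dist_comm]
  | succ t ih =>
    intro h1 h2 u hu
    have h3 := ih (by omega) (by omega)
    have h4 := hX.dom_dist (y := y) h3
    have h5 : X.dist (P t) y ≤ 2 * (n - t - 1) := by
      rcases le_max_iff.1 h4 with h6 | h6 <;> omega
    have h6 := h3 u hu
    rw [SimpleGraph.dist_comm] at h6
    exact (h.fas t (by omega)).loose hX h5 u h6

/-- a path of best moves is near every timed trajectory with the same start and target -/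
theorem path_tt (hX : Fac X) : ∃ K : ℕ, ∀ (n s : ℕ) (y : V) (P c : ℕ → V), s ≤ n →
    X.dist (P 0) y ≤ 2 * (n - s) → 2 * (n - s) ≤ X.dist (P 0) y + 1 → BPath X n y P →
    c 0 = P 0 → TT X s y c → ∀ t, X.dist (P t) (c t) ≤ K := by
  obtain ⟨R1, hR1⟩ := hX.stab_fin 1
  obtain ⟨R2, hR2⟩ := hX.stab_fin (R1 + 4)
  refine ⟨R1 + R2 + 1, fun n s y P c hs hd1 hd2 hP h0 hc t => ?_⟩
  have hcs : ∀ t, t ≤ s → c t = P 0 := by
    intro t
    induction t with
    | zero => exact fun _ => h0
    | succ t ih =>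
      intro ht
      rw [hc.1 t (by omega), ih (by omega)]
  have hyy : X.dist y y ≤ 2 := by simp
  rcases Nat.lt_or_ge t s with hts | hts
  · -- before the time `s`
    have h1 := hP.rest hX hd1 t hts.le (by omega) (P 0) (by simp)
    rw [hcs t hts.le, SimpleGraph.dist_comm]
    omega
  rcases Nat.eq_or_lt_of_le hs with hsn | hsn
  · -- no move at all
    have h1 : P 0 = y := hX.connected.dist_eq_zero_iff.1 (by omega)
    have h2 : ∀ k, c (s + k) = y := by
      intro k
      induction k with
      | zero => rw [Nat.add_zero, hcs s le_rfl, h1]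
      | succ k ih =>
        rcases hc.2 (s + k) (by omega) with ⟨-, h3⟩ | ⟨h3, -⟩
        · exact h3
        · rw [ih, SimpleGraph.dist_self] at h3
          omega
    obtain ⟨k, rfl⟩ := Nat.exists_eq_add_of_le hts
    rw [h2 k, hP.stop _ (by omega), SimpleGraph.dist_self]
    omega
  have hdom := hP.rest hX hd1 s le_rfl (by omega)
  have hPs : X.dist (P 0) (P s) ≤ 1 := hdom (P 0) (by simp)
  have hD1 : X.dist (P s) y ≤ 2 * (n - s) := by
    rcases le_max_iff.1 (hX.dom_dist (y := y) hdom) with h6 | h6 <;> omega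
  have hstart : X.dist (P (s + 0)) (c (s + 0)) ≤ 1 := by
    rw [Nat.add_zero, hcs s le_rfl, SimpleGraph.dist_comm]
    exact hPs
  have hstep : ∀ i, Step X y (c (s + i)) (c (s + i + 1)) := fun i => hc.2 _ (by omega)
  -- after an exceptional time
  have hafter : ∀ j, (∀ i, i < j → Step X y (P (s + i)) (P (s + i + 1))) →
      X.dist (P (s + j + 1)) y = 2 * (n - (s + j + 1)) → ∀ i,
      X.dist (P (s + j + 1 + i)) (c (s + j + 1 + i)) ≤ R2 := by
    intro j hj hT i
    have h1 := hR1 y y j (fun i => P (s + i)) (fun i => c (s + i)) hj (fun i _ => hstep i) hyy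
      hstart j le_rfl
    have h2 := hP.dist_le (s + j)
    have h3 := hX.step_dist (hstep j)
    have h4 := hX.connected.dist_triangle (u := P (s + j + 1)) (v := P (s + j))
      (w := c (s + j + 1))
    have h5 := hX.connected.dist_triangle (u := P (s + j)) (v := c (s + j)) (w := c (s + j + 1))
    rw [SimpleGraph.dist_comm] at h2
    refine hR2 y y i (fun i => P (s + j + 1 + i)) (fun i => c (s + j + 1 + i))
      (fun i _ => (hP.tight_all hX hT i).1) (fun i _ => ?_) hyy ?_ i le_rfl
    · have := hstep (j + 1 + i)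
      rw [show s + (j + 1 + i) = s + j + 1 + i by omega] at this
      exact this
    · change X.dist (P (s + j + 1)) (c (s + j + 1)) ≤ R1 + 4
      omega
  obtain ⟨k, rfl⟩ := Nat.exists_eq_add_of_le hts
  -- either a step or an exceptional time at `s`
  have hs0 : (2 * (n - s) ≤ X.dist (P s) y + 1) ∨
      X.dist (P (s + 1)) y = 2 * (n - (s + 1)) := by
    by_cases h1 : 2 * (n - s) ≤ X.dist (P s) y + 1
    · exact Or.inl h1
    · right
      by_cases h2 : s + 2 ≤ n
      · have hF := hP.fas s h2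
        have h3 := hX.connected.dist_triangle (u := P 0) (v := P s) (w := y)
        have h4 := hF.loose hX (by omega) (P 0) (by rw [SimpleGraph.dist_comm]; exact hPs)
        have h5 := hX.connected.dist_triangle (u := P 0) (v := P (s + 1)) (w := y)
        have h6 := hF.2.1
        omega
      · rw [hP.stop (s + 1) (by omega), SimpleGraph.dist_self]
        omega
  have key : ∀ k, ((∀ i, i < k → Step X y (P (s + i)) (P (s + i + 1))) ∧
      2 * (n - (s + k)) ≤ X.dist (P (s + k)) y + 1 ∧
      X.dist (P (s + k)) y ≤ 2 * (n - (s + k))) ∨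
      (∃ j, j ≤ k ∧ (∀ i, i < j → Step X y (P (s + i)) (P (s + i + 1))) ∧
        X.dist (P (s + j + 1)) y = 2 * (n - (s + j + 1))) := by
    intro k
    induction k with
    | zero =>
      rcases hs0 with h1 | h1
      · exact Or.inl ⟨fun i hi => absurd hi (by omega), by simpa using h1, by simpa using hD1⟩
      · exact Or.inr ⟨0, le_rfl, fun i hi => absurd hi (by omega), by simpa using h1⟩
    | succ k ih =>
      rcases ih with ⟨h1, h2, h3⟩ | ⟨j, h1, h2, h3⟩
      · rcases hP.semi hX h2 h3 with ⟨h4, h5, h6⟩ | h4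
        · left
          refine ⟨fun i hi => ?_, h5, h6⟩
          rcases Nat.lt_succ_iff_lt_or_eq.1 hi with h7 | h7
          · exact h1 i h7
          · rw [h7]
            exact h4
        · right
          exact ⟨k, by omega, h1, h4⟩
      · exact Or.inr ⟨j, by omega, h2, h3⟩
  rcases key k with ⟨h1, -, -⟩ | ⟨j, h1, h2, h3⟩
  · have h4 := hR1 y y k (fun i => P (s + i)) (fun i => c (s + i)) h1 (fun i _ => hstep i) hyy
      hstart k le_rfl
    omega
  · rcases Nat.eq_or_lt_of_le h1 with h4 | h4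
    · subst h4
      have h5 := hR1 y y j (fun i => P (s + i)) (fun i => c (s + i)) h2 (fun i _ => hstep i) hyy
        hstart j le_rfl
      omega
    · have h5 := hafter j h2 h3 (k - (j + 1))
      rw [show s + j + 1 + (k - (j + 1)) = s + k by omega] at h5
      omega

end Pool.Agent.MP_b803e5_al
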