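import Mathlib
import Pool.Agent.Lib.MP_b803e5_al_P.FacA

/-!
# MP_b803e5_al, factors: timed trajectories towards nearby targets
-/

set_option autoImplicit false

namespace Pool.Agent.MP_b803e5_al

variable {V : Type*} {X : SimpleGraph V}

lemma tt_exists (hX : Fac X) (s : ℕ) (y x : V) : ∃ c : ℕ → V, c 0 = x ∧ TT X s y c := by
  choose f hf using fun v => hX.step_exists y v
  refine ⟨fun t => f^[t - s] x, by simp, fun t ht => ?_, fun t ht => ?_⟩
  · change f^[t + 1 - s] x = f^[t - s] x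
    rw [show t + 1 - s = t - s by omega]
  · change Step X y (f^[t - s] x) (f^[t + 1 - s] x)
    rw [show t + 1 - s = (t - s) + 1 by omega, Function.iterate_succ_apply']
    exact hf _

lemma TT.rest {s : ℕ} {y : V} {c : ℕ → V} (hc : TT X s y c) (t : ℕ) (ht : t ≤ s) :
    c t = c 0 := by
  induction t with
  | zero => rfl
  | succ t ih => rw [hc.1 t (by omega), ih (by omega)]

private lemma tt_tt_aux (hX : Fac X) : ∃ K : ℕ, ∀ (s s' : ℕ) (y y' : V) (c c' : ℕ → V),
    s ≤ s' → s' ≤ s + 2 → X.dist y y' ≤ 2 → c 0 = c' 0 → TT X s y c → TT X s' y' c' →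
    ∀ t, X.dist (c t) (c' t) ≤ K := by
  obtain ⟨R, hR⟩ := hX.stab 4
  refine ⟨R + 4, fun s s' y y' c c' h1 h2 hy h0 hc hc' t => ?_⟩
  have hmove : ∀ k, X.dist (c (s + k)) (c 0) ≤ 2 * k := by
    intro k
    induction k with
    | zero => rw [Nat.add_zero, hc.rest s le_rfl, SimpleGraph.dist_self]
    | succ k ih =>
      have h3 := hX.step_dist (hc.2 (s + k) (by omega))
      have h4 := hX.connected.dist_triangle (u := c (s + k + 1)) (v := c (s + k)) (w := c 0)
      rw [SimpleGraph.dist_comm (u := c (s + k + 1)) (v := c (s + k))] at h4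
      change X.dist (c (s + k + 1)) (c 0) ≤ _
      omega
  rcases Nat.lt_or_ge t s' with h3 | h3
  · rw [hc'.rest t h3.le, ← h0]
    rcases Nat.lt_or_ge t s with h4 | h4
    · rw [hc.rest t h4.le, SimpleGraph.dist_self]
      omega
    · obtain ⟨k, rfl⟩ := Nat.exists_eq_add_of_le h4
      have h5 := hmove k
      omega
  · obtain ⟨k, rfl⟩ := Nat.exists_eq_add_of_le h3
    have h4 := hR y y' (fun i => c (s' + i)) (fun i => c' (s' + i))
      (fun i => hc.2 _ (by omega)) (fun i => hc'.2 _ (by omega)) hy (by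
        obtain ⟨j, rfl⟩ := Nat.exists_eq_add_of_le h1
        have h5 := hmove j
        change X.dist (c (s + j)) (c' (s + j)) ≤ 4
        rw [hc'.rest _ le_rfl, ← h0]
        omega) k
    omega

/-- timed trajectories with the same start, towards near targets and with almost the same
duration stay near each other -/
theorem tt_tt (hX : Fac X) : ∃ K : ℕ, ∀ (n n' s s' : ℕ) (y y' : V) (c c' : ℕ → V),
    n ≤ n' + 1 → n' ≤ n + 1 → s ≤ n → s' ≤ n' → X.dist y y' ≤ 2 →
    X.dist (c 0) y ≤ 2 * (n - s) → 2 * (n - s) ≤ X.dist (c 0) y + 1 →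
    X.dist (c' 0) y' ≤ 2 * (n' - s') → 2 * (n' - s') ≤ X.dist (c' 0) y' + 1 →
    c 0 = c' 0 → TT X s y c → TT X s' y' c' → ∀ t, X.dist (c t) (c' t) ≤ K := by
  obtain ⟨K, hK⟩ := tt_tt_aux hX
  refine ⟨K, fun n n' s s' y y' c c' hn hn' hs hs' hy h1 h2 h3 h4 h0 hc hc' t => ?_⟩
  rw [← h0] at h3 h4
  have h5 := hX.connected.dist_triangle (u := c 0) (v := y) (w := y')
  have h6 := hX.connected.dist_triangle (u := c 0) (v := y') (w := y)
  have h7 : X.dist y' y ≤ 2 := by rwa [SimpleGraph.dist_comm]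
  rcases Nat.le_total s s' with h8 | h8
  · exact hK s s' y y' c c' h8 (by omega) hy h0 hc hc' t
  · rw [SimpleGraph.dist_comm]
    exact hK s' s y' y c' c h8 (by omega) h7 h0.symm hc' hc t

end Pool.Agent.MP_b803e5_al
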