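import Mathlib
import Pool.Agent.Lib.MP_b803e5_al_P.Defs

/-!
# MP_b803e5_al, lattice quotients: shifts and distances
-/

set_option autoImplicit false

namespace Pool.Agent.MP_b803e5_al

variable {𝓛 V : Type*} [Lattice 𝓛] {τ : 𝓛 ≃o 𝓛} {π : 𝓛 → V}

lemma sh_zero (L : 𝓛) : sh τ 0 L = L := rfl

lemma sh_add (m n : ℤ) (L : 𝓛) : sh τ (m + n) L = sh τ m (sh τ n L) := by
  unfold sh
  rw [zpow_add]
  rfl

lemma sh_one (L : 𝓛) : sh τ 1 L = τ L := by
  unfold sh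
  rw [zpow_one]

lemma sh_le_sh {n : ℤ} {L M : 𝓛} : sh τ n L ≤ sh τ n M ↔ L ≤ M := (τ ^ n).le_iff_le

lemma sh_sup (n : ℤ) (L M : 𝓛) : sh τ n (L ⊔ M) = sh τ n L ⊔ sh τ n M := map_sup (τ ^ n) L M

lemma sh_inf (n : ℤ) (L M : 𝓛) : sh τ n (L ⊓ M) = sh τ n L ⊓ sh τ n M := map_inf (τ ^ n) L M

lemma sh_strictMono (h : IsLatticeQuotient τ π) (L : 𝓛) : StrictMono fun n : ℤ => sh τ n L := by
  refine strictMono_int_of_lt_succ fun n => ?_
  change sh τ n L < sh τ (n + 1) L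
  rw [sh_add, sh_one]
  exact (τ ^ n).lt_iff_lt.2 (h.lt L)

lemma sh_mono (h : IsLatticeQuotient τ π) {m n : ℤ} (hmn : m ≤ n) (L : 𝓛) :
    sh τ m L ≤ sh τ n L := (sh_strictMono h L).monotone hmn

lemma sh_le_iff (h : IsLatticeQuotient τ π) {m n : ℤ} (L : 𝓛) :
    sh τ m L ≤ sh τ n L ↔ m ≤ n := (sh_strictMono h L).le_iff_le

/-- moving a shift to the other side -/
lemma sh_le_comm {a : ℤ} {L M : 𝓛} : sh τ (-a) L ≤ M ↔ L ≤ sh τ a M := by
  rw [← sh_le_sh (τ := τ) (n := a), ← sh_add, add_neg_cancel, sh_zero]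

lemma pi_sh (h : IsLatticeQuotient τ π) (n : ℤ) (L : 𝓛) : π (sh τ n L) = π L :=
  ((h.orbit L (sh τ n L)).2 ⟨n, rfl⟩).symm

lemma exists_sh (h : IsLatticeQuotient τ π) {L M : 𝓛} (hLM : π L = π M) :
    ∃ n : ℤ, M = sh τ n L := (h.orbit L M).1 hLM

lemma Wi.left (h : IsLatticeQuotient τ π) {m : ℕ} {u v : V} (hw : Wi τ π m u v) {L : 𝓛}
    (hL : π L = u) : ∃ M, π M = v ∧ M ≤ L ∧ L ≤ sh τ m M := by
  obtain ⟨L', M', h1, h2, h3, h4⟩ := hw
  obtain ⟨j, rfl⟩ := exists_sh h (h1.trans hL.symm)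
  refine ⟨sh τ j M', by rw [pi_sh h, h2], sh_le_sh.2 h3, ?_⟩
  rw [← sh_add, add_comm, sh_add, sh_le_sh]
  exact h4

lemma Wi.right (h : IsLatticeQuotient τ π) {m : ℕ} {u v : V} (hw : Wi τ π m u v) {M : 𝓛}
    (hM : π M = v) : ∃ L, π L = u ∧ M ≤ L ∧ L ≤ sh τ m M := by
  obtain ⟨L', M', h1, h2, h3, h4⟩ := hw
  obtain ⟨j, rfl⟩ := exists_sh h (h2.trans hM.symm)
  refine ⟨sh τ j L', by rw [pi_sh h, h1], sh_le_sh.2 h3, ?_⟩
  rw [← sh_add, add_comm, sh_add, sh_le_sh]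
  exact h4

lemma Wi.symm (h : IsLatticeQuotient τ π) {m : ℕ} {u v : V} (hw : Wi τ π m u v) :
    Wi τ π m v u := by
  obtain ⟨L, M, h1, h2, h3, h4⟩ := hw
  exact ⟨sh τ m M, L, by rw [pi_sh h, h2], h1, h4, sh_le_sh.2 h3⟩

lemma Wi.eq {u v : V} (hw : Wi τ π 0 u v) : u = v := by
  obtain ⟨L, M, h1, h2, h3, h4⟩ := hw
  have h5 : L = M := le_antisymm h4 h3
  rw [← h1, ← h2, h5]

lemma Wi.mono (h : IsLatticeQuotient τ π) {m m' : ℕ} {u v : V} (hw : Wi τ π m u v)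
    (hm : m ≤ m') : Wi τ π m' u v := by
  obtain ⟨L, M, h1, h2, h3, h4⟩ := hw
  exact ⟨L, M, h1, h2, h3, h4.trans (sh_mono h (by exact_mod_cast hm) M)⟩

lemma Wi.trans (h : IsLatticeQuotient τ π) {m k : ℕ} {u v w : V} (h1 : Wi τ π m u v)
    (h2 : Wi τ π k v w) : Wi τ π (m + k) u w := by
  obtain ⟨L, M, h3, h4, h5, h6⟩ := h1
  obtain ⟨N, h7, h8, h9⟩ := h2.left h h4
  refine ⟨L, N, h3, h7, h8.trans h5, h6.trans ?_⟩
  rw [Nat.cast_add, sh_add]
  exact sh_le_sh.2 h9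

lemma Wi.split (h : IsLatticeQuotient τ π) {m k : ℕ} {u w : V} (hw : Wi τ π (m + k) u w) :
    ∃ v, Wi τ π m u v ∧ Wi τ π k v w := by
  obtain ⟨L, N, h1, h2, h3, h4⟩ := hw
  have h5 : N ≤ sh τ k N := by
    have := sh_mono h (m := 0) (n := (k : ℤ)) (by positivity) N
    rwa [sh_zero] at this
  have h6 : L ≤ sh τ m L := by
    have := sh_mono h (m := 0) (n := (m : ℤ)) (by positivity) L
    rwa [sh_zero] at this
  refine ⟨π (L ⊓ sh τ k N), ⟨L, L ⊓ sh τ k N, h1, rfl, inf_le_left, ?_⟩,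
    ⟨L ⊓ sh τ k N, N, rfl, h2, le_inf h3 h5, inf_le_right⟩⟩
  rw [sh_inf, ← sh_add, ← Nat.cast_add]
  exact le_inf h6 h4

lemma wi_exists (h : IsLatticeQuotient τ π) (u v : V) : ∃ m : ℕ, Wi τ π m u v := by
  obtain ⟨L, rfl⟩ := h.surj u
  obtain ⟨M, rfl⟩ := h.surj v
  obtain ⟨a, ha⟩ := h.cofinal L M
  obtain ⟨b, hb⟩ := h.cofinal M (sh τ a L)
  refine ⟨b, sh τ a L, M, pi_sh h _ _, rfl, ?_, ?_⟩
  · unfold sh
    rw [zpow_natCast]
    exact ha
  · unfold sh at hb ⊢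
    rw [zpow_natCast] at hb ⊢
    exact hb

lemma lat_adj (h : IsLatticeQuotient τ π) (u v : V) :
    (latGraph τ π).Adj u v ↔ u ≠ v ∧ Wi τ π 1 u v := by
  have h1 : ∀ u v : V, LNear τ π u v ↔ Wi τ π 1 v u := by
    intro u v
    constructor
    · rintro ⟨L, M, h1, h2, h3, h4⟩
      exact ⟨M, L, h2, h1, h3, by rw [Nat.cast_one, sh_one]; exact h4⟩
    · rintro ⟨M, L, h1, h2, h3, h4⟩
      exact ⟨L, M, h2, h1, h3, by rwa [Nat.cast_one, sh_one] at h4⟩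
  unfold latGraph
  rw [SimpleGraph.fromRel_adj, h1, h1]
  constructor
  · rintro ⟨h2, h3 | h3⟩
    · exact ⟨h2, h3.symm h⟩
    · exact ⟨h2, h3⟩
  · rintro ⟨h2, h3⟩
    exact ⟨h2, Or.inr h3⟩

lemma wi_walk (h : IsLatticeQuotient τ π) (m : ℕ) : ∀ u v : V, Wi τ π m u v →
    ∃ p : (latGraph τ π).Walk u v, p.length ≤ m := by
  induction m with
  | zero =>
    intro u v hw
    obtain rfl := hw.eq
    exact ⟨SimpleGraph.Walk.nil, le_rfl⟩
  | succ m ih =>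
    intro u v hw
    obtain ⟨w, h1, h2⟩ := Wi.split h (m := 1) (k := m) (by rwa [add_comm])
    obtain ⟨p, hp⟩ := ih w v h2
    by_cases huw : u = w
    · subst huw
      exact ⟨p, by omega⟩
    · exact ⟨SimpleGraph.Walk.cons ((lat_adj h u w).2 ⟨huw, h1⟩) p, by
        rw [SimpleGraph.Walk.length_cons]
        omega⟩

lemma walk_wi (h : IsLatticeQuotient τ π) {u v : V} (p : (latGraph τ π).Walk u v) :
    Wi τ π p.length u v := by
  induction p with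
  | nil =>
    rename_i u
    obtain ⟨L, rfl⟩ := h.surj u
    exact ⟨L, L, rfl, rfl, le_rfl, le_rfl⟩
  | cons hadj p ih =>
    rw [SimpleGraph.Walk.length_cons, add_comm]
    exact Wi.trans h ((lat_adj h _ _).1 hadj).2 ih

lemma lat_connected (h : IsLatticeQuotient τ π) [Nonempty V] : (latGraph τ π).Connected := by
  haveI : Nonempty V := inferInstance
  exact ⟨fun u v => by
    obtain ⟨m, hm⟩ := wi_exists h u v
    obtain ⟨p, -⟩ := wi_walk h m u v hm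
    exact ⟨p⟩⟩

lemma lat_dist [Nonempty V] (h : IsLatticeQuotient τ π) {u v : V} {m : ℕ} :
    (latGraph τ π).dist u v ≤ m ↔ Wi τ π m u v := by
  constructor
  · intro h1
    obtain ⟨p, hp⟩ := (lat_connected h).exists_walk_length_eq_dist u v
    exact (walk_wi h p).mono h (hp.le.trans h1)
  · intro h1
    obtain ⟨p, hp⟩ := wi_walk h m u v h1
    exact (SimpleGraph.dist_le p).trans hp

/-- normalised representatives exist -/
lemma exists_nm (h : IsLatticeQuotient τ π) (M : 𝓛) (x : V) : ∃ L, Nm τ π M x L := by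
  obtain ⟨L0, rfl⟩ := h.surj x
  obtain ⟨a, ha⟩ := h.cofinal L0 M
  obtain ⟨b, hb⟩ := h.cofinal M L0
  have ha' : M ≤ sh τ a L0 := by
    unfold sh
    rw [zpow_natCast]
    exact ha
  have hb' : L0 ≤ sh τ b M := by
    unfold sh
    rw [zpow_natCast]
    exact hb
  obtain ⟨i, hi1, hi2⟩ := Int.exists_greatest_of_bdd (P := fun i => sh τ i M ≤ L0)
    ⟨b, fun i hi => (sh_le_iff h M).1 (hi.trans hb')⟩
    ⟨-a, (sh_le_comm (a := (a : ℤ))).2 ha'⟩
  refine ⟨sh τ (-i) L0, pi_sh h _ _, ?_, fun h1 => ?_⟩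
  · have h2 := (sh_le_sh (τ := τ) (n := -i)).2 hi1
    rwa [← sh_add, neg_add_cancel, sh_zero] at h2
  · have h2 := (sh_le_sh (τ := τ) (n := i)).2 h1
    rw [← sh_add, ← sh_add, add_neg_cancel, sh_zero] at h2
    have h3 := hi2 _ h2
    omega

/-- the distance of `x` to the orbit of `M`, by the normalised representative of `x` -/
lemma Nm.dist [Nonempty V] (h : IsLatticeQuotient τ π) {M : 𝓛} {x : V} {L : 𝓛}
    (hL : Nm τ π M x L) {m : ℕ} : (latGraph τ π).dist x (π M) ≤ m ↔ L ≤ sh τ m M := by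
  rw [lat_dist h]
  constructor
  · intro hw
    obtain ⟨L', h1, h2, h3⟩ := hw.right h (M := M) rfl
    obtain ⟨j, rfl⟩ := exists_sh h (hL.1.trans h1.symm)
    rcases Int.lt_or_le j 0 with hj | hj
    · exfalso
      refine hL.2.2 ((sh_mono h (show (1 : ℤ) ≤ -j by omega) M).trans ?_)
      rw [sh_le_comm]
      exact h2
    · have h4 := sh_mono h hj L
      rw [sh_zero] at h4
      exact h4.trans h3
  · intro h1
    exact ⟨L, M, hL.1, rfl, hL.2.1, h1⟩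

/-- normalised representatives of a vertex and of a neighbour closer to the target -/
lemma Nm.adj [Nonempty V] (h : IsLatticeQuotient τ π) {M : 𝓛} {a b : V} {A B : 𝓛}
    (hA : Nm τ π M a A) (hB : Nm τ π M b B) (hab : Wi τ π 1 a b)
    (hd : (latGraph τ π).dist b (π M) + 1 = (latGraph τ π).dist a (π M)) :
    A ≤ sh τ 1 B ∧ B ≤ A := by
  obtain ⟨B', h1, h2, h3⟩ := hab.left h hA.1
  rw [Nat.cast_one] at h3
  obtain ⟨j, rfl⟩ := exists_sh h (hB.1.trans h1.symm)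
  have h4 : j = 0 := by
    rcases lt_trichotomy j 0 with hj | hj | hj
    · exfalso
      have h5 : A ≤ B := by
        rw [← sh_add] at h3
        have h6 := sh_mono h (show 1 + j ≤ 0 by omega) B
        rw [sh_zero] at h6
        exact h3.trans h6
      have h6 := (hB.dist h (m := (latGraph τ π).dist b (π M))).1 le_rfl
      have h7 := (hA.dist h (m := (latGraph τ π).dist b (π M))).2 (h5.trans h6)
      omega
    · exact hj
    · exfalso
      refine hA.2.2 (le_trans ?_ h2)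
      refine le_trans (sh_le_sh.2 hB.2.1) (sh_mono h (show (1 : ℤ) ≤ j by omega) B)
  subst h4
  rw [sh_zero] at h2 h3
  exact ⟨h3, h2⟩

end Pool.Agent.MP_b803e5_al
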