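import Mathlib
import Pool.Agent.Lib.MP_b803e5_al_P.LatA

/-!
# MP_b803e5_al, lattice quotients: steps
-/

set_option autoImplicit false

namespace Pool.Agent.MP_b803e5_al

variable {𝓛 V : Type*} [Lattice 𝓛] {τ : 𝓛 ≃o 𝓛} {π : 𝓛 → V}

lemma le_sh (h : IsLatticeQuotient τ π) {n : ℤ} (hn : 0 ≤ n) (L : 𝓛) : L ≤ sh τ n L := by
  have := sh_mono h hn L
  rwa [sh_zero] at this

lemma sh_le' (h : IsLatticeQuotient τ π) {n : ℤ} (hn : n ≤ 0) (L : 𝓛) : sh τ n L ≤ L := by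
  have := sh_mono h hn L
  rwa [sh_zero] at this

/-- a shifted inequality -/
lemma sh_shift {n k : ℤ} {L M : 𝓛} (hL : L ≤ sh τ k M) : sh τ n L ≤ sh τ (n + k) M := by
  rw [sh_add]
  exact sh_le_sh.2 hL

/-- lower bounds for normalised representatives below a normalised one -/
lemma Nm.of_le {M : 𝓛} {x : V} {L U : 𝓛} (hL : Nm τ π M x L) (h1 : M ≤ U) (h2 : U ≤ L) :
    Nm τ π M (π U) U := ⟨rfl, h1, fun h3 => hL.2.2 (h3.trans h2)⟩

/-- a representative between `sh (-1) L` and `L` whose distance to the target is smaller is a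
neighbour closer to the target -/
lemma nb_of_le [Nonempty V] (h : IsLatticeQuotient τ π) {M : 𝓛} {x : V} {L U : 𝓛} {m : ℕ}
    (hL : Nm τ π M x L) (hm : (latGraph τ π).dist x (π M) = m + 1) (h1 : M ≤ U) (h2 : U ≤ L)
    (h3 : L ≤ sh τ 1 U) (h4 : U ≤ sh τ m M) :
    (latGraph τ π).Adj x (π U) ∧
      (latGraph τ π).dist (π U) (π M) + 1 = (latGraph τ π).dist x (π M) := by
  have h5 := ((hL.of_le h1 h2).dist h (m := m)).2 h4
  have h6 : Wi τ π 1 x (π U) := ⟨L, U, hL.1, rfl, h2, h3⟩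
  have h7 := (lat_dist h).2 h6
  have h8 := (lat_connected h).dist_triangle (u := x) (v := π U) (w := π M)
  refine ⟨(lat_adj h _ _).2 ⟨fun h9 => ?_, h6⟩, by omega⟩
  rw [← h9] at h5
  omega

/-- a step vertex lies between two explicit elements -/
lemma step_between [Nonempty V] (h : IsLatticeQuotient τ π) {M : 𝓛} {x z : V} {L Z : 𝓛} {m : ℕ}
    (hL : Nm τ π M x L) (hZ : Nm τ π M z Z) (hm : (latGraph τ π).dist x (π M) = m + 2)
    (hz : (latGraph τ π).dist z (π M) = m)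
    (hadj : ∀ u, (latGraph τ π).Adj x u →
      (latGraph τ π).dist u (π M) + 1 = (latGraph τ π).dist x (π M) →
      (latGraph τ π).Adj u z) :
    Z ≤ M ⊔ sh τ (-1) L ∧ Z ≤ sh τ m M ∧ sh τ (-1) L ⊓ sh τ m M ≤ Z := by
  have hLm : L ≤ sh τ ((m : ℤ) + 2) M := by
    have := (hL.dist h (m := m + 2)).1 hm.le
    push_cast at this
    exact this
  have hM1 : M ≤ sh τ ((m + 1 : ℕ) : ℤ) M := le_sh h (by positivity) M
  have hL1 : sh τ (-1) L ≤ sh τ ((m + 1 : ℕ) : ℤ) M := by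
    have h1 := sh_shift (n := -1) hLm
    have h2 : (-1 : ℤ) + ((m : ℤ) + 2) = ((m + 1 : ℕ) : ℤ) := by
      push_cast
      ring
    rwa [h2] at h1
  refine ⟨?_, (hZ.dist h (m := m)).1 hz.le, ?_⟩
  · -- the smallest neighbour
    have h1 : M ≤ M ⊔ sh τ (-1) L := le_sup_left
    have h2 : M ⊔ sh τ (-1) L ≤ L := sup_le hL.2.1 (sh_le' h (by norm_num) L)
    have h3 : L ≤ sh τ 1 (M ⊔ sh τ (-1) L) := by
      rw [sh_sup, ← sh_add]
      exact le_sup_right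
    have h4 : M ⊔ sh τ (-1) L ≤ sh τ ((m + 1 : ℕ) : ℤ) M := sup_le hM1 hL1
    obtain ⟨h5, h6⟩ := nb_of_le h hL (m := m + 1) (by omega) h1 h2 h3 h4
    have h7 := hadj _ h5 h6
    have h8 := ((lat_adj h _ _).1 h7).2
    exact (Nm.adj h (hL.of_le h1 h2) hZ h8 (by omega)).2
  · -- the largest neighbour
    have h1 : M ≤ L ⊓ sh τ ((m + 1 : ℕ) : ℤ) M := le_inf hL.2.1 hM1
    have h2 : L ⊓ sh τ ((m + 1 : ℕ) : ℤ) M ≤ L := inf_le_left
    have h3 : L ≤ sh τ 1 (L ⊓ sh τ ((m + 1 : ℕ) : ℤ) M) := by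
      rw [sh_inf, ← sh_add]
      refine le_inf (le_sh h (by norm_num) L) ?_
      have h9 : (1 : ℤ) + ((m + 1 : ℕ) : ℤ) = (m : ℤ) + 2 := by
        push_cast
        ring
      rw [h9]
      exact hLm
    have h4 : L ⊓ sh τ ((m + 1 : ℕ) : ℤ) M ≤ sh τ ((m + 1 : ℕ) : ℤ) M := inf_le_right
    obtain ⟨h5, h6⟩ := nb_of_le h hL (m := m + 1) (by omega) h1 h2 h3 h4
    have h7 := hadj _ h5 h6
    have h8 := ((lat_adj h _ _).1 h7).2
    have h9 := (Nm.adj h (hL.of_le h1 h2) hZ h8 (by omega)).1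
    have h10 := (sh_le_sh (τ := τ) (n := -1)).2 h9
    rw [← sh_add, sh_inf, ← sh_add] at h10
    have h11 : (-1 : ℤ) + ((m + 1 : ℕ) : ℤ) = (m : ℤ) := by
      push_cast
      ring
    rw [h11] at h10
    exact h10

/-- steps exist -/
lemma lat_step [Nonempty V] (h : IsLatticeQuotient τ π) (y x : V)
    (hxy : 2 < (latGraph τ π).dist x y) :
    ∃ z, (latGraph τ π).dist z y + 2 = (latGraph τ π).dist x y ∧
      ∀ u, (latGraph τ π).Adj x u →
        (latGraph τ π).dist u y + 1 = (latGraph τ π).dist x y → (latGraph τ π).Adj u z := by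
  obtain ⟨M, rfl⟩ := h.surj y
  obtain ⟨L, hL⟩ := exists_nm h M x
  obtain ⟨m, hm⟩ : ∃ m, (latGraph τ π).dist x (π M) = m + 2 := ⟨_, (by omega :
    (latGraph τ π).dist x (π M) = ((latGraph τ π).dist x (π M) - 2) + 2)⟩
  have hLm : L ≤ sh τ ((m : ℤ) + 2) M := by
    have := (hL.dist h (m := m + 2)).1 hm.le
    push_cast at this
    exact this
  set Z : 𝓛 := M ⊔ (sh τ (-1) L ⊓ sh τ m M) with hZdef
  have hZL : Z ≤ L := sup_le hL.2.1 (inf_le_left.trans (sh_le' h (by norm_num) L))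
  have hMZ : M ≤ Z := le_sup_left
  have hZ : Nm τ π M (π Z) Z := hL.of_le hMZ hZL
  have hZd : (latGraph τ π).dist (π Z) (π M) ≤ m :=
    (hZ.dist h).2 (sup_le (le_sh h (by positivity) M) inf_le_right)
  have hLZ : L ≤ sh τ ((2 : ℕ) : ℤ) Z := by
    rw [hZdef, sh_sup, sh_inf, ← sh_add, ← sh_add]
    refine le_trans (le_inf ?_ ?_) le_sup_right
    · exact le_sh h (by norm_num) L
    · have h9 : ((2 : ℕ) : ℤ) + (m : ℤ) = (m : ℤ) + 2 := by
        push_cast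
        ring
      rw [h9]
      exact hLm
  have hxz : (latGraph τ π).dist x (π Z) ≤ 2 := (lat_dist h).2 ⟨L, Z, hL.1, rfl, hZL, hLZ⟩
  have htri := (lat_connected h).dist_triangle (u := x) (v := π Z) (w := π M)
  refine ⟨π Z, by omega, fun u hu hud => ?_⟩
  obtain ⟨U, hU⟩ := exists_nm h M u
  obtain ⟨h1, h2⟩ := Nm.adj h hL hU ((lat_adj h _ _).1 hu).2 hud
  have h3 : U ≤ sh τ ((m + 1 : ℕ) : ℤ) M := (hU.dist h).1 (by omega)
  have h4 : Z ≤ U := by
    refine sup_le hU.2.1 (inf_le_left.trans ?_)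
    rw [sh_le_comm]
    exact h1
  have h5 : U ≤ sh τ ((1 : ℕ) : ℤ) Z := by
    rw [hZdef, sh_sup, sh_inf, ← sh_add, ← sh_add]
    refine le_trans (le_inf ?_ ?_) le_sup_right
    · rw [Nat.cast_one, add_neg_cancel, sh_zero]
      exact h2
    · have h9 : ((1 : ℕ) : ℤ) + (m : ℤ) = ((m + 1 : ℕ) : ℤ) := by
        push_cast
        ring
      rw [h9]
      exact h3
  refine (lat_adj h _ _).2 ⟨fun h6 => ?_, ⟨U, Z, hU.1, rfl, h4, h5⟩⟩
  rw [← h6] at hZd
  omega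

end Pool.Agent.MP_b803e5_al
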