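import Mathlib
import Pool.Agent.Lib.MP_b803e5_al_P.LatB

/-!
# MP_b803e5_al, lattice quotients: stability of trajectories, the factor axioms
-/

set_option autoImplicit false

namespace Pool.Agent.MP_b803e5_al

variable {𝓛 V : Type*} [Lattice 𝓛] {τ : 𝓛 ≃o 𝓛} {π : 𝓛 → V}

/-- the target itself is its own normalised representative -/
lemma Nm.eq_of_target [Nonempty V] (h : IsLatticeQuotient τ π) {M : 𝓛} {z : V} {Z : 𝓛}
    (hZ : Nm τ π M z Z) (hz : z = π M) : Z = M := by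
  have h1 := (hZ.dist h (m := 0)).1 (by rw [hz]; simp)
  rw [Nat.cast_zero, sh_zero] at h1
  exact le_antisymm h1 hZ.2.1

/-- one step of two trajectories -/
lemma stab_one [Nonempty V] (h : IsLatticeQuotient τ π) {a b : ℕ} (hab : b + 1 ≤ a)
    {M M' : 𝓛} (hM : M ≤ sh τ b M') {x x' z z' : V} {L L' Z Z' : 𝓛}
    (hL : Nm τ π M x L) (hL' : Nm τ π M' x' L') (hZ : Nm τ π M z Z) (hZ' : Nm τ π M' z' Z')
    (hs : Step (latGraph τ π) (π M) x z) (hs' : Step (latGraph τ π) (π M') x' z')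
    (h1 : L ≤ sh τ a L')
    (h2 : (latGraph τ π).dist x (π M) + b + 1 ≤ (latGraph τ π).dist x' (π M') + a) :
    Z ≤ sh τ a Z' ∧
      (latGraph τ π).dist z (π M) + b + 1 ≤ (latGraph τ π).dist z' (π M') + a := by
  rcases hs with ⟨-, hzM⟩ | ⟨hm, hd, hadj⟩
  · -- the first trajectory has arrived
    rw [hZ.eq_of_target h hzM]
    refine ⟨?_, ?_⟩
    · have hba : (b : ℤ) ≤ (a : ℤ) := by exact_mod_cast (by omega : b ≤ a)
      exact hM.trans ((sh_mono h hba M').trans (sh_le_sh.2 hZ'.2.1))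
    · rw [hzM, SimpleGraph.dist_self]
      omega
  obtain ⟨m, hmz⟩ : ∃ m, (latGraph τ π).dist z (π M) = m := ⟨_, rfl⟩
  obtain ⟨h3, h4, -⟩ := step_between h hL hZ (m := m) (by omega) hmz hadj
  rcases hs' with ⟨hm', hzM'⟩ | ⟨hm', hd', hadj'⟩
  · -- the second trajectory has arrived
    rw [hZ'.eq_of_target h hzM']
    refine ⟨?_, ?_⟩
    · refine h4.trans ((sh_shift hM).trans (sh_mono h ?_ M'))
      have : m + b ≤ a := by omega
      exact_mod_cast this
    · rw [hzM', SimpleGraph.dist_self]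
      omega
  obtain ⟨m', hmz'⟩ : ∃ m', (latGraph τ π).dist z' (π M') = m' := ⟨_, rfl⟩
  obtain ⟨-, -, h5⟩ := step_between h hL' hZ' (m := m') (by omega) hmz' hadj'
  refine ⟨?_, by omega⟩
  have h6 := (sh_le_sh (τ := τ) (n := (a : ℤ))).2 h5
  rw [sh_inf, ← sh_add, ← sh_add] at h6
  refine le_trans (le_inf ?_ ?_) h6
  · refine h3.trans (sup_le ?_ ?_)
    · refine hM.trans (le_trans (sh_le_sh.2 hL'.2.1) (sh_mono h ?_ L'))
      have : ((b : ℤ) + 1) ≤ (a : ℤ) := by exact_mod_cast hab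
      linarith
    · have h7 := sh_shift (n := -1) h1
      rwa [add_comm] at h7
  · refine h4.trans ((sh_shift hM).trans (sh_mono h ?_ M'))
    have h8 : m + b ≤ a + m' := by omega
    exact_mod_cast h8

/-- stability along trajectories, in one direction -/
lemma stab_traj [Nonempty V] (h : IsLatticeQuotient τ π) {a b : ℕ} (hab : b + 1 ≤ a)
    {M M' : 𝓛} (hM : M ≤ sh τ b M') {c c' : ℕ → V} (hc : Traj (latGraph τ π) (π M) c)
    (hc' : Traj (latGraph τ π) (π M') c')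
    (h1 : ∀ L L', Nm τ π M (c 0) L → Nm τ π M' (c' 0) L' → L ≤ sh τ a L')
    (h2 : (latGraph τ π).dist (c 0) (π M) + b + 1 ≤ (latGraph τ π).dist (c' 0) (π M') + a)
    (t : ℕ) : (∀ L L', Nm τ π M (c t) L → Nm τ π M' (c' t) L' → L ≤ sh τ a L') ∧
      (latGraph τ π).dist (c t) (π M) + b + 1 ≤ (latGraph τ π).dist (c' t) (π M') + a := by
  induction t with
  | zero => exact ⟨h1, h2⟩
  | succ t ih =>
    obtain ⟨L, hL⟩ := exists_nm h M (c t)
    obtain ⟨L', hL'⟩ := exists_nm h M' (c' t)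
    obtain ⟨Z0, hZ0⟩ := exists_nm h M (c (t + 1))
    obtain ⟨Z0', hZ0'⟩ := exists_nm h M' (c' (t + 1))
    refine ⟨fun Z Z' hZ hZ' => ?_, ?_⟩
    · exact (stab_one h hab hM hL hL' hZ hZ' (hc t) (hc' t) (ih.1 L L' hL hL') ih.2).1
    · exact (stab_one h hab hM hL hL' hZ0 hZ0' (hc t) (hc' t) (ih.1 L L' hL hL') ih.2).2

/-- comparison of the initial representatives -/
lemma nm_init [Nonempty V] (h : IsLatticeQuotient τ π) {b r : ℕ}
    {M M' : 𝓛} (hM : M ≤ sh τ b M') {x x' : V} {L L' : 𝓛} (hL : Nm τ π M x L)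
    (hL' : Nm τ π M' x' L') (hx : (latGraph τ π).dist x x' ≤ r) :
    L ≤ sh τ ((r + b : ℕ) : ℤ) L' := by
  obtain ⟨L'', h1, h2, h3⟩ := ((lat_dist h).1 hx).left h hL.1
  obtain ⟨j, rfl⟩ := exists_sh h (hL'.1.trans h1.symm)
  have hj : j ≤ b := by
    by_contra hj
    push Not at hj
    refine hL.2.2 (le_trans ?_ h2)
    refine le_trans (sh_shift (n := 1) hM) ?_
    refine le_trans (sh_mono h (show (1 : ℤ) + b ≤ j by omega) M') ?_
    exact sh_le_sh.2 hL'.2.1
  rw [← sh_add] at h3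
  refine h3.trans (sh_mono h ?_ L')
  push_cast
  linarith

/-- the stability axiom -/
lemma lat_stab [Nonempty V] (h : IsLatticeQuotient τ π) (r : ℕ) (y y' : V) (c c' : ℕ → V)
    (hc : Traj (latGraph τ π) y c) (hc' : Traj (latGraph τ π) y' c')
    (hy : (latGraph τ π).dist y y' ≤ 2) (h0 : (latGraph τ π).dist (c 0) (c' 0) ≤ r) (t : ℕ) :
    (latGraph τ π).dist (c t) (c' t) ≤ (r + 5) + (r + 5) := by
  obtain ⟨M, rfl⟩ := h.surj y
  obtain ⟨M', rfl, h1, h2⟩ := ((lat_dist h).1 hy).left h rfl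
  have h1' : M' ≤ sh τ ((2 : ℕ) : ℤ) M := h1.trans (le_sh h (by positivity) M)
  have h0' : (latGraph τ π).dist (c' 0) (c 0) ≤ r := by
    rw [SimpleGraph.dist_comm]
    exact h0
  have hy' : (latGraph τ π).dist (π M') (π M) ≤ 2 := by
    rw [SimpleGraph.dist_comm]
    exact hy
  have t1 := (lat_connected h).dist_triangle (u := c 0) (v := c' 0) (w := π M)
  have t2 := (lat_connected h).dist_triangle (u := c' 0) (v := π M') (w := π M)
  have t3 := (lat_connected h).dist_triangle (u := c' 0) (v := c 0) (w := π M')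
  have t4 := (lat_connected h).dist_triangle (u := c 0) (v := π M) (w := π M')
  have e1 := (stab_traj h (a := r + 5) (b := 2) (by omega) h2 hc hc'
    (fun L L' hL hL' => (nm_init h h2 hL hL' h0).trans (sh_mono h
      (by exact_mod_cast (by omega : r + 2 ≤ r + 5)) L')) (by omega) t).1
  have e2 := (stab_traj h (a := r + 5) (b := 2) (by omega) h1' hc' hc
    (fun L L' hL hL' => (nm_init h h1' hL hL' h0').trans (sh_mono h
      (by exact_mod_cast (by omega : r + 2 ≤ r + 5)) L')) (by omega) t).1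
  obtain ⟨L, hL⟩ := exists_nm h M (c t)
  obtain ⟨L', hL'⟩ := exists_nm h M' (c' t)
  have e3 := e1 L L' hL hL'
  have e4 := e2 L' L hL' hL
  refine (lat_dist h).2 ⟨sh τ ((r + 5 : ℕ) : ℤ) L, L', by rw [pi_sh h, hL.1], hL'.1, e4, ?_⟩
  have e5 := sh_shift (n := ((r + 5 : ℕ) : ℤ)) e3
  rw [Nat.cast_add (r + 5) (r + 5)]
  exact e5

/-- local finiteness -/
lemma lat_fin [Nonempty V] (h : IsLatticeQuotient τ π) (v : V) :
    ((latGraph τ π).neighborSet v).Finite := by
  obtain ⟨L, rfl⟩ := h.surj v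
  have h1 := (h.fin (sh τ (-1) L)).image π
  refine h1.subset ?_
  intro u hu
  obtain ⟨M, h2, h3, h4⟩ := ((lat_adj h _ _).1 hu).2.left h rfl
  refine ⟨M, ⟨?_, ?_⟩, h2⟩
  · rw [sh_le_comm]
    exact h4
  · rw [← sh_one, ← sh_add, add_neg_cancel, sh_zero]
    exact h3

/-- a lattice quotient is a factor -/
theorem lat_fac [Nonempty V] (h : IsLatticeQuotient τ π) : Fac (latGraph τ π) where
  connected := lat_connected h
  fin := lat_fin h
  step := lat_step h
  stab := fun r => ⟨(r + 5) + (r + 5), fun y y' c c' hc hc' hy h0 t =>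
    lat_stab h r y y' c c' hc hc' hy h0 t⟩

end Pool.Agent.MP_b803e5_al
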