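import Mathlib
import Pool.Agent.Lib.MP_b803e5_al_P.FacA

/-!
# MP_b803e5_al, strong products: a best move is a best move in every factor
-/

set_option autoImplicit false

namespace Pool.Agent.MP_b803e5_al

variable {ι : Type*} [Fintype ι] {V : ι → Type*} {X : ∀ i, SimpleGraph (V i)}

lemma pn_ncard (x z : ∀ i, V i) :
    (PN X x z).ncard = ∏ i, (Nb (X i) (x i) (z i)).ncard := by
  have h : (PN X x z) = {u | ∀ i, u i ∈ Nb (X i) (x i) (z i)} := by
    ext u
    exact ⟨fun h i => ⟨h.1 i, h.2 i⟩, fun h => ⟨fun i => (h i).1, fun i => (h i).2⟩⟩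
  rw [h, ← Nat.card_coe_set_eq]
  have e : {u : ∀ i, V i | ∀ i, u i ∈ Nb (X i) (x i) (z i)} ≃
      ∀ i, (Nb (X i) (x i) (z i) : Set (V i)) :=
    Equiv.subtypePiEquivPi (p := fun i b => b ∈ Nb (X i) (x i) (z i))
  rw [Nat.card_congr e, Nat.card_pi]
  exact Finset.prod_congr rfl fun i _ => Nat.card_coe_set_eq _

/-- a best move in the strong product is a best move in every factor -/
theorem PAS.fas (hX : ∀ i, Fac (X i)) {r : ℕ} {y x z : ∀ i, V i} (h : PAS X r y x z) (i : ι) :
    FAS (X i) r (y i) (x i) (z i) := by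
  classical
  obtain ⟨h1, h2, h3⟩ := h
  refine ⟨h1 i, h2 i, fun a ha1 ha2 => ?_⟩
  have h4 := h3 (Function.update z i a) (fun j => ?_) (fun j => ?_)
  · rw [pn_ncard, pn_ncard, ← Finset.mul_prod_erase _ _ (Finset.mem_univ i),
      ← Finset.mul_prod_erase Finset.univ (fun j => (Nb (X j) (x j) (z j)).ncard)
        (Finset.mem_univ i), Function.update_self] at h4
    have h5 : ∏ j ∈ Finset.univ.erase i, (Nb (X j) (x j) (Function.update z i a j)).ncard =
        ∏ j ∈ Finset.univ.erase i, (Nb (X j) (x j) (z j)).ncard := by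
      refine Finset.prod_congr rfl fun j hj => ?_
      rw [Function.update_of_ne (Finset.ne_of_mem_erase hj)]
    rw [h5] at h4
    refine Nat.le_of_mul_le_mul_right h4 (Finset.prod_pos fun j _ => ?_)
    rw [Set.ncard_pos (((hX j).ball_finite (x j)).subset fun w hw => hw.1)]
    obtain ⟨w, hw1, hw2⟩ := exists_between (hX j).connected (m := 1) (n := 1) (h1 j)
    exact ⟨w, hw1, hw2⟩
  · by_cases hj : j = i
    · subst hj
      rwa [Function.update_self]
    · rw [Function.update_of_ne hj]
      exact h1 j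
  · by_cases hj : j = i
    · subst hj
      rwa [Function.update_self]
    · rw [Function.update_of_ne hj]
      exact h2 j

end Pool.Agent.MP_b803e5_al
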