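import Mathlib
import Pool.Agent.Lib.MP_b803e5_al_P.FacA

/-!
# MP_b803e5_al, strong products: the action and the distances
-/

set_option autoImplicit false

namespace Pool.Agent.MP_b803e5_al

lemma Fac.ballm_finite {V : Type*} {X : SimpleGraph V} (hX : Fac X) (m : ℕ) :
    ∀ v : V, {u | X.dist v u ≤ m}.Finite := by
  induction m with
  | zero =>
    intro v
    refine (Set.finite_singleton v).subset fun z hz => ?_
    change X.dist v z ≤ 0 at hz
    exact ((hX.connected.dist_eq_zero_iff).1 (Nat.le_zero.1 hz)).symm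
  | succ m ih =>
    intro v
    refine ((ih v).biUnion fun w _ => hX.ball_finite w).subset fun z hz => ?_
    obtain ⟨y, hy1, hy2⟩ := exists_between hX.connected (m := m) (n := 1) hz
    exact Set.mem_biUnion hy1 hy2

variable {ι : Type*} {V : ι → Type*} {X : ∀ i, SimpleGraph (V i)}

lemma PD.symm' {m : ℕ} {u v : ∀ i, V i} (h : PD X m u v) : PD X m v u := fun i => by
  rw [SimpleGraph.dist_comm]
  exact h i

lemma PD.mono {m m' : ℕ} {u v : ∀ i, V i} (h : PD X m u v) (hm : m ≤ m') : PD X m' u v :=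
  fun i => (h i).trans hm

lemma PD.refl' (m : ℕ) (u : ∀ i, V i) : PD X m u u := fun i => by
  rw [SimpleGraph.dist_self]
  exact Nat.zero_le _

lemma PD.trans' (hX : ∀ i, Fac (X i)) {m m' : ℕ} {u v w : ∀ i, V i} (h : PD X m u v)
    (h' : PD X m' v w) : PD X (m + m') u w := fun i =>
  ((hX i).connected.dist_triangle (u := u i) (v := v i) (w := w i)).trans
    (Nat.add_le_add (h i) (h' i))

lemma PD.eq (hX : ∀ i, Fac (X i)) {u v : ∀ i, V i} (h : PD X 0 u v) : u = v := by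
  funext i
  exact (hX i).connected.dist_eq_zero_iff.1 (Nat.le_zero.1 (h i))

lemma pd_split (hX : ∀ i, Fac (X i)) {m m' : ℕ} {u w : ∀ i, V i} (h : PD X (m + m') u w) :
    ∃ v, PD X m u v ∧ PD X m' v w := by
  have h1 := fun i => exists_between (hX i).connected (h i)
  choose v hv1 hv2 using h1
  exact ⟨v, hv1, hv2⟩

lemma pd_finite [Finite ι] (hX : ∀ i, Fac (X i)) (m : ℕ) (u : ∀ i, V i) :
    {v | PD X m u v}.Finite :=
  Set.Finite.pi' fun i => (hX i).ballm_finite m (u i)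

section action

variable {G : Type*} [Group G] [MulAction G (∀ i, V i)]

lemma pd_smul_of (hX : ∀ i, Fac (X i))
    (hG : ∀ (g : G) (u v : ∀ i, V i), PD X 1 u v → PD X 1 (g • u) (g • v)) (g : G) (m : ℕ) :
    ∀ u v : ∀ i, V i, PD X m u v → PD X m (g • u) (g • v) := by
  induction m with
  | zero =>
    intro u v h
    rw [PD.eq hX h]
    exact PD.refl' 0 _
  | succ m ih =>
    intro u v h
    obtain ⟨w, h1, h2⟩ := pd_split hX h
    exact PD.trans' hX (ih u w h1) (hG g w v h2)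

lemma pd_smul (hX : ∀ i, Fac (X i))
    (hG : ∀ (g : G) (u v : ∀ i, V i), PD X 1 u v → PD X 1 (g • u) (g • v)) (g : G) (m : ℕ)
    (u v : ∀ i, V i) : PD X m (g • u) (g • v) ↔ PD X m u v := by
  refine ⟨fun h => ?_, pd_smul_of hX hG g m u v⟩
  have h1 := pd_smul_of hX hG g⁻¹ m _ _ h
  rwa [inv_smul_smul, inv_smul_smul] at h1

lemma pn_smul (hX : ∀ i, Fac (X i))
    (hG : ∀ (g : G) (u v : ∀ i, V i), PD X 1 u v → PD X 1 (g • u) (g • v)) (g : G)
    (x z : ∀ i, V i) : (PN X (g • x) (g • z)).ncard = (PN X x z).ncard := by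
  have h : PN X (g • x) (g • z) = (fun u => g • u) '' PN X x z := by
    ext u
    constructor
    · rintro ⟨h1, h2⟩
      refine ⟨g⁻¹ • u, ⟨?_, ?_⟩, smul_inv_smul g u⟩
      · rw [← pd_smul hX hG g, smul_inv_smul]
        exact h1
      · rw [← pd_smul hX hG g, smul_inv_smul]
        exact h2
    · rintro ⟨u, ⟨h1, h2⟩, rfl⟩
      exact ⟨(pd_smul hX hG g 1 _ _).2 h1, (pd_smul hX hG g 1 _ _).2 h2⟩
  rw [h]
  exact Set.ncard_image_of_injective _ (MulAction.injective g)

lemma PAS.smul (hX : ∀ i, Fac (X i))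
    (hG : ∀ (g : G) (u v : ∀ i, V i), PD X 1 u v → PD X 1 (g • u) (g • v)) (g : G) {r : ℕ}
    {y x z : ∀ i, V i} (h : PAS X r y x z) : PAS X r (g • y) (g • x) (g • z) := by
  obtain ⟨h1, h2, h3⟩ := h
  refine ⟨(pd_smul hX hG g 2 _ _).2 h1, (pd_smul hX hG g _ _ _).2 h2, fun z' h4 h5 => ?_⟩
  have h6 := h3 (g⁻¹ • z') (by rw [← pd_smul hX hG g, smul_inv_smul]; exact h4)
    (by rw [← pd_smul hX hG g, smul_inv_smul]; exact h5)
  rw [← pn_smul hX hG g x (g⁻¹ • z'), smul_inv_smul] at h6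
  rw [pn_smul hX hG g x z]
  exact h6

variable {n : ℕ} {f : Fin n → G} {x0 : ∀ i, V i}

lemma pd_len (hX : ∀ i, Fac (X i))
    (hG : ∀ (g : G) (u v : ∀ i, V i), PD X 1 u v → PD X 1 (g • u) (g • v))
    (hf : ∀ i, PD X 2 x0 (f i • x0)) (w : List (Fin n)) :
    PD X (2 * w.length) x0 (ev f w • x0) := by
  induction w with
  | nil =>
    rw [ev_nil, one_smul]
    exact PD.refl' _ _
  | cons a w ih =>
    rw [ev_cons, mul_smul, List.length_cons]
    exact (PD.trans' hX (hf a) ((pd_smul hX hG (f a) _ _ _).2 ih)).mono (by omega)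

lemma exists_wordP (hX : ∀ i, Fac (X i))
    (hG : ∀ (g : G) (u v : ∀ i, V i), PD X 1 u v → PD X 1 (g • u) (g • v))
    (htr : ∀ u v : ∀ i, V i, ∃ g : G, g • u = v)
    (hS : ∀ g : G, PD X 2 x0 (g • x0) → ∃ i, f i = g) {m : ℕ} (hm : 1 ≤ m) :
    ∀ g : G, PD X (2 * m) x0 (g • x0) → ∃ w : List (Fin n), w.length = m ∧ ev f w = g := by
  induction m, hm using Nat.le_induction with
  | base =>
    intro g hg
    obtain ⟨i, hi⟩ := hS g hg
    exact ⟨[i], rfl, by simp [hi]⟩
  | succ m hm ih =>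
    intro g hg
    obtain ⟨z, hz1, hz2⟩ := pd_split hX (m := 2) (m' := 2 * m)
      (show PD X (2 + 2 * m) x0 (g • x0) from hg.mono (by omega))
    obtain ⟨h, rfl⟩ := htr x0 z
    obtain ⟨i, hi⟩ := hS h hz1
    have h1 : PD X (2 * m) x0 ((h⁻¹ * g) • x0) := by
      rw [← pd_smul hX hG h, mul_smul, smul_inv_smul]
      exact hz2
    obtain ⟨w, hw, hwe⟩ := ih _ h1
    exact ⟨i :: w, by simp [hw], by rw [ev_cons, hwe, hi, mul_inv_cancel_left]⟩

lemma least_lenP (hX : ∀ i, Fac (X i))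
    (hG : ∀ (g : G) (u v : ∀ i, V i), PD X 1 u v → PD X 1 (g • u) (g • v))
    (htr : ∀ u v : ∀ i, V i, ∃ g : G, g • u = v)
    (hS : ∀ g : G, PD X 2 x0 (g • x0) → ∃ i, f i = g) {w : List (Fin n)}
    (hw : IsShortlexLeast f w) {m : ℕ} (hm : 1 ≤ m) (h : PD X (2 * m) x0 (ev f w • x0)) :
    w.length ≤ m := by
  obtain ⟨w', hw', hwe⟩ := exists_wordP hX hG htr hS hm (ev f w) h
  have h1 := hw.length_le f (w := w') hwe
  omega

/-- the first letter of a least word is a best move -/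
lemma first_PAS (hX : ∀ i, Fac (X i))
    (hG : ∀ (g : G) (u v : ∀ i, V i), PD X 1 u v → PD X 1 (g • u) (g • v))
    (htr : ∀ u v : ∀ i, V i, ∃ g : G, g • u = v) (hf : ∀ i, PD X 2 x0 (f i • x0))
    (hS : ∀ g : G, PD X 2 x0 (g • x0) → ∃ i, f i = g)
    (hN : ∀ i j, i ≤ j → (PN X x0 (f j • x0)).ncard ≤ (PN X x0 (f i • x0)).ncard)
    {a : Fin n} {v : List (Fin n)} (hw : IsShortlexLeast f (a :: v)) (hv : 1 ≤ v.length) :
    PAS X v.length (ev f (a :: v) • x0) x0 (f a • x0) := by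
  refine ⟨hf a, ?_, fun z' h1 h2 => ?_⟩
  · rw [ev_cons, mul_smul, pd_smul hX hG]
    exact pd_len hX hG hf v
  · obtain ⟨k, rfl⟩ := htr x0 z'
    obtain ⟨i, hi⟩ := hS k h1
    have h4 : PD X (2 * v.length) x0 ((k⁻¹ * ev f (a :: v)) • x0) := by
      rw [← pd_smul hX hG k, mul_smul, smul_inv_smul]
      exact h2
    obtain ⟨v', hv', hve⟩ := exists_wordP hX hG htr hS hv _ h4
    have hword : ev f (i :: v') = ev f (a :: v) := by
      rw [ev_cons f i v', hve, hi, mul_inv_cancel_left]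
    have hai : a ≤ i := by
      by_contra hlt
      rw [not_le] at hlt
      exact hw (i :: v') hword (List.Shortlex.of_lex (by simp [hv']) (List.Lex.rel hlt))
    have hcard := hN a i hai
    rwa [hi] at hcard

/-- the positions of a least word are best moves -/
lemma path_PAS (hX : ∀ i, Fac (X i))
    (hG : ∀ (g : G) (u v : ∀ i, V i), PD X 1 u v → PD X 1 (g • u) (g • v))
    (htr : ∀ u v : ∀ i, V i, ∃ g : G, g • u = v) (hf : ∀ i, PD X 2 x0 (f i • x0))
    (hS : ∀ g : G, PD X 2 x0 (g • x0) → ∃ i, f i = g)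
    (hN : ∀ i j, i ≤ j → (PN X x0 (f j • x0)).ncard ≤ (PN X x0 (f i • x0)).ncard)
    {w : List (Fin n)} (hw : IsShortlexLeast f w) {t : ℕ} (ht : t + 2 ≤ w.length) :
    PAS X (w.length - t - 1) (ev f w • x0) (ev f (w.take t) • x0)
      (ev f (w.take (t + 1)) • x0) := by
  have h1 : w = w.take t ++ w.drop t := (List.take_append_drop t w).symm
  have h2 : w.drop t = w[t] :: w.drop (t + 1) := List.drop_eq_getElem_cons (by omega)
  have h3 : IsShortlexLeast f (w[t] :: w.drop (t + 1)) := by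
    rw [← h2]
    exact IsShortlexLeast.right f (u := w.take t) (by rw [← h1]; exact hw)
  have h4 := (first_PAS hX hG htr hf hS hN h3 (by rw [List.length_drop]; omega)).smul hX hG
    (ev f (w.take t))
  rw [List.length_drop, ← mul_smul, ← mul_smul, ← h2, ← ev_append, ← h1] at h4
  rw [show w.length - t - 1 = w.length - (t + 1) by omega]
  have h5 : w.take (t + 1) = w.take t ++ [w[t]] := List.take_succ_eq_append_getElem (by omega)
  rw [h5, ev_append, ev_cons, ev_nil, mul_one]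
  exact h4

end action

end Pool.Agent.MP_b803e5_al
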