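import Mathlib
import Pool.Agent.Lib.MP_b803e5_al_P.FacB
import Pool.Agent.Lib.MP_b803e5_al_P.FacC
import Pool.Agent.Lib.MP_b803e5_al_P.PW
import Pool.Agent.Lib.MP_b803e5_al_P.PN

/-!
# MP_b803e5_al, strong products: the main theorem
-/

set_option autoImplicit false

namespace Pool.Agent.MP_b803e5_al

variable {ι : Type*} {V : ι → Type*} {X : ∀ i, SimpleGraph (V i)}
  {G : Type*} [Group G] [MulAction G (∀ i, V i)] {n : ℕ} {f : Fin n → G} {x0 : ∀ i, V i}

/-- the positions of a least word, in a factor -/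
lemma word_bpath [Fintype ι] (hX : ∀ i, Fac (X i))
    (hG : ∀ (g : G) (u v : ∀ i, V i), PD X 1 u v → PD X 1 (g • u) (g • v))
    (htr : ∀ u v : ∀ i, V i, ∃ g : G, g • u = v) (hf : ∀ i, PD X 2 x0 (f i • x0))
    (hS : ∀ g : G, PD X 2 x0 (g • x0) → ∃ i, f i = g)
    (hN : ∀ i j, i ≤ j → (PN X x0 (f j • x0)).ncard ≤ (PN X x0 (f i • x0)).ncard)
    {w : List (Fin n)} (hw : IsShortlexLeast f w) (i : ι) :
    BPath (X i) w.length ((ev f w • x0) i) (fun t => (ev f (w.take t) • x0) i) := by
  refine ⟨fun t ht => (path_PAS hX hG htr hf hS hN hw ht).fas hX i, fun t ht => ?_,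
    fun t ht => ?_⟩
  · rcases Nat.lt_or_ge t w.length with h1 | h1
    · have h2 : w.take (t + 1) = w := List.take_of_length_le (by omega)
      have h3 : w.take (t + 1) = w.take t ++ [w[t]] := List.take_succ_eq_append_getElem (by omega)
      have h4 : ev f w = ev f (w.take t) * f w[t] := by
        conv_lhs => rw [← h2, h3]
        rw [ev_append, ev_cons, ev_nil, mul_one]
      have h5 : PD X 2 (ev f (w.take t) • x0) (ev f w • x0) := by
        rw [h4, mul_smul, pd_smul hX hG]
        exact hf _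
      exact h5 i
    · rw [List.take_of_length_le h1, SimpleGraph.dist_self]
      omega
  · rw [List.take_of_length_le ht]

/-- **Main theorem**: a group acting on a finite strong product of factors by automorphisms,
transitively on vertices and with finite stabilisers, is shortlex automatic. -/
theorem shortlexAutomatic_of_prod [Fintype ι] (hX : ∀ i, Fac (X i))
    (hG : ∀ (g : G) (u v : ∀ i, V i), PD X 1 u v → PD X 1 (g • u) (g • v))
    (htr : ∀ u v : ∀ i, V i, ∃ g : G, g • u = v)
    (hst : ∀ v : ∀ i, V i, {g : G | g • v = v}.Finite) : ShortlexAutomatic G := by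
  classical
  have hne : ∀ i, Nonempty (V i) := fun i => (hX i).connected.nonempty
  obtain ⟨x0⟩ : Nonempty (∀ i, V i) := ⟨fun i => Classical.choice (hne i)⟩
  have hto : ∀ v : ∀ i, V i, {g : G | g • x0 = v}.Finite := by
    intro v
    obtain ⟨h, hh⟩ := htr x0 v
    refine ((hst x0).image fun g => h * g).subset fun g hg => ?_
    change g • x0 = v at hg
    exact ⟨h⁻¹ * g, by
      change (h⁻¹ * g) • x0 = x0
      rw [mul_smul, hg, ← hh, inv_smul_smul], mul_inv_cancel_left h g⟩
  have hFn : ∀ m : ℕ, {g : G | PD X m x0 (g • x0)}.Finite := by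
    intro m
    refine ((pd_finite hX m x0).biUnion fun v _ => hto v).subset fun g hg => ?_
    exact Set.mem_biUnion (show g • x0 ∈ {z | PD X m x0 z} from hg) rfl
  obtain ⟨n, f, hf, hS, hN⟩ := exists_enum (hFn 2) fun g => (PN X x0 (g • x0)).ncard
  have hf' : ∀ i, PD X 2 x0 (f i • x0) := fun i => hf i
  have hS' : ∀ g : G, PD X 2 x0 (g • x0) → ∃ i, f i = g := fun g hg => hS g hg
  have hgen : ∀ g : G, ∃ w : List (Fin n), ev f w = g := by
    intro g
    obtain ⟨w, -, hw⟩ := exists_wordP (f := f) (x0 := x0) hX hG htr hS'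
      (m := 1 + ∑ i, (X i).dist (x0 i) ((g • x0) i)) (by omega) g (fun i => by
        have h1 := Finset.single_le_sum (f := fun i => (X i).dist (x0 i) ((g • x0) i))
          (fun j _ => Nat.zero_le _) (Finset.mem_univ i)
        omega)
    exact ⟨w, hw⟩
  have h1 := fun i => path_tt (hX i)
  have h2 := fun i => tt_tt (hX i)
  choose K1 hK1 using h1
  choose K2 hK2 using h2
  refine ⟨n, f, hgen, automatic_of_FT hgen (hFn (∑ i, (2 * K1 i + K2 i))) ?_
    fun v w hv hw a h => ?_⟩
  · change PD X _ x0 ((1 : G) • x0)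
    rw [one_smul]
    exact PD.refl' _ _
  have hyy : PD X 2 (ev f v • x0) (ev f w • x0) := by
    rw [← h, mul_smul, pd_smul hX hG]
    exact hf' a
  have hlv := pd_len hX hG hf' v
  have hlw := pd_len hX hG hf' w
  have hvw : v.length ≤ w.length + 1 :=
    least_lenP hX hG htr hS' hv (m := w.length + 1) (by omega)
      ((PD.trans' hX hlw hyy.symm').mono (by omega))
  have hwv : w.length ≤ v.length + 1 :=
    least_lenP hX hG htr hS' hw (m := v.length + 1) (by omega)
      ((PD.trans' hX hlv hyy).mono (by omega))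
  intro t
  change PD X _ x0 (((ev f (v.take t))⁻¹ * ev f (w.take t)) • x0)
  rw [← pd_smul hX hG (ev f (v.take t)), mul_smul, smul_inv_smul]
  intro i
  have hP := word_bpath hX hG htr hf' hS' hN hv i
  have hQ := word_bpath hX hG htr hf' hS' hN hw i
  have hP0 : (ev f (v.take 0) • x0) i = x0 i := by
    rw [List.take_zero, ev_nil, one_smul]
  have hQ0 : (ev f (w.take 0) • x0) i = x0 i := by
    rw [List.take_zero, ev_nil, one_smul]
  have hv1 := hlv i
  have hw1 := hlw i
  set d := (X i).dist (x0 i) ((ev f v • x0) i) with hd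
  set d' := (X i).dist (x0 i) ((ev f w • x0) i) with hd'
  obtain ⟨c, hc0, hc⟩ := tt_exists (hX i) (v.length - (d + 1) / 2) ((ev f v • x0) i) (x0 i)
  obtain ⟨c', hc0', hc'⟩ := tt_exists (hX i) (w.length - (d' + 1) / 2) ((ev f w • x0) i) (x0 i)
  have e1 := hK1 i v.length (v.length - (d + 1) / 2) _ _ c (by omega)
    (by rw [hP0, ← hd]; omega) (by rw [hP0, ← hd]; omega) hP
    (by rw [hc0]; exact hP0.symm) hc t
  have e2 := hK1 i w.length (w.length - (d' + 1) / 2) _ _ c' (by omega)
    (by rw [hQ0, ← hd']; omega) (by rw [hQ0, ← hd']; omega) hQ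
    (by rw [hc0']; exact hQ0.symm) hc' t
  have e3 := hK2 i v.length w.length (v.length - (d + 1) / 2) (w.length - (d' + 1) / 2) _ _ c c'
    hvw hwv (by omega) (by omega) (hyy i) (by rw [hc0, ← hd]; omega) (by rw [hc0, ← hd]; omega)
    (by rw [hc0', ← hd']; omega) (by rw [hc0', ← hd']; omega) (hc0.trans hc0'.symm) hc hc' t
  have e4 := (hX i).connected.dist_triangle (u := (ev f (v.take t) • x0) i) (v := c t)
    (w := (ev f (w.take t) • x0) i)
  have e5 := (hX i).connected.dist_triangle (u := c t) (v := c' t)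
    (w := (ev f (w.take t) • x0) i)
  rw [SimpleGraph.dist_comm] at e2
  have e6 := Finset.single_le_sum (f := fun i => 2 * K1 i + K2 i)
    (fun j _ => Nat.zero_le _) (Finset.mem_univ i)
  omega

end Pool.Agent.MP_b803e5_al
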