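import Mathlib
import Pool.Agent.Lib.MP_b803e5_al_P.LatC
import Pool.Agent.Lib.MP_b803e5_al_P.Main

/-!
# MP_b803e5_al, products of lattice quotients: the main theorem
-/

set_option autoImplicit false

namespace Pool.Agent.MP_b803e5_al

variable {𝓛 V : Type*} [Lattice 𝓛] {τ : 𝓛 ≃o 𝓛} {π : 𝓛 → V}

lemma lnear_iff [Nonempty V] (h : IsLatticeQuotient τ π) (u v : V) :
    LNear τ π u v ↔ (latGraph τ π).dist u v ≤ 1 := by
  rw [lat_dist h]
  constructor
  · rintro ⟨L, M, h1, h2, h3, h4⟩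
    refine Wi.symm h ⟨M, L, h2, h1, h3, ?_⟩
    rw [Nat.cast_one, sh_one]
    exact h4
  · intro hw
    obtain ⟨M, L, h1, h2, h3, h4⟩ := hw.symm h
    refine ⟨L, M, h2, h1, h3, ?_⟩
    rwa [Nat.cast_one, sh_one] at h4

theorem shortlexAutomatic_of_lattices {ι : Type*} [Finite ι] {𝓛 V : ι → Type*}
    [∀ i, Lattice (𝓛 i)] [∀ i, Nonempty (V i)] {τ : ∀ i, 𝓛 i ≃o 𝓛 i} {π : ∀ i, 𝓛 i → V i}
    {G : Type*} [Group G] [MulAction G (∀ i, V i)]
    (h : ∀ i, IsLatticeQuotient (τ i) (π i))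
    (hG : ∀ (g : G) (u v : ∀ i, V i), (∀ i, LNear (τ i) (π i) (u i) (v i)) →
      ∀ i, LNear (τ i) (π i) ((g • u) i) ((g • v) i))
    (htr : ∀ u v : ∀ i, V i, ∃ g : G, g • u = v)
    (hst : ∀ v : ∀ i, V i, {g : G | g • v = v}.Finite) : ShortlexAutomatic G := by
  classical
  haveI := Fintype.ofFinite ι
  refine shortlexAutomatic_of_prod (X := fun i => latGraph (τ i) (π i)) (fun i => lat_fac (h i))
    (fun g u v huv i => ?_) htr hst
  rw [← lnear_iff (h i)]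
  exact hG g u v (fun j => (lnear_iff (h j) (u j) (v j)).2 (huv j)) i

end Pool.Agent.MP_b803e5_al
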